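import Pool.Agent.Helper4.Hall

set_option autoImplicit false

namespace Pool.Agent.Results.MP_c09272_nt.CoprimeReduction

open Pool.Agent.Helper4

/-- The generalized Hall conjecture holds for all pairs `(m,n)` with `1/m + 1/n < 1` if and only if
it holds for all coprime pairs `m, n ≥ 2`. -/
theorem result :
    (∀ m n : ℕ, 0 < m → 0 < n → (1 : ℝ) / m + 1 / n < 1 → HallProp m n) ↔
      (∀ m n : ℕ, 2 ≤ m → 2 ≤ n → Nat.Coprime m n → HallProp m n) :=
  reduction

end Pool.Agent.Results.MP_c09272_nt.CoprimeReduction
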