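import Pool.Agent.Helper4.Hall

set_option autoImplicit false

namespace Pool.Agent.Results.MP_c09272_nt.DivisiblePairs

open Pool.Agent.Helper4

/-- `(H_{m,n})` holds unconditionally for every admissible pair in which one exponent divides the
other. -/
theorem result (m n : ℕ) (hm : 0 < m) (hn : 0 < n) (h : (1 : ℝ) / m + 1 / n < 1)
    (hd : m ∣ n ∨ n ∣ m) : HallProp m n :=
  hall_of_dvd m n hm hn h hd

end Pool.Agent.Results.MP_c09272_nt.DivisiblePairs
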